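import Mathlib
import Pool.Agent.R830.Spl.Defs
import Pool.Agent.R830.Spl.Local

/-! The splinter locus of a finitely generated `ℤ`-algebra need not be open. -/

open Pool.Agent.R830.Spl in
/-- There is an integral domain `R`, finitely generated as a `ℤ`-algebra (hence excellent), whose
splinter locus is not open in `Spec R`.  The proof takes `R = ℤ[x,y,z]/(x^7+y^7+z^7)`. -/
theorem Pool.Agent.Results.MP_124696_ag.NotOpen.result :
    ∃ (R : Type) (_ : CommRing R), IsDomain R ∧ Algebra.FiniteType ℤ R ∧
      ¬ IsOpen (splinterLocus R) :=
  ⟨R, (inferInstance : CommRing R), (inferInstance : IsDomain R),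
    (inferInstance : Algebra.FiniteType ℤ R), not_isOpen⟩
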